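import Pool.Agent.H28.Haar

set_option autoImplicit false

open Polynomial Pool.Agent.H28

namespace Pool.Agent.Results.MP_382e70_an.Small

theorem result : ∃ (a b c : ℕ → ℝ) (P : ℕ → ℝ[X]), (∀ n, 0 < a n ∧ b n = 0 ∧ a n + b n + c n = 1) ∧
    c 0 = 0 ∧ (∀ n, 1 ≤ n → 0 < c n) ∧ P 0 = 1 ∧ P 1 = (a 0)⁻¹ • (X - C (b 0)) ∧
    (∀ n, 1 ≤ n → P 1 * P n = a n • P (n + 1) + b n • P n + c n • P (n - 1)) ∧
    (∀ m n, ∃ g : ℕ →₀ ℝ, (∀ k, 0 ≤ g k) ∧ P m * P n = g.sum fun k r => r • P k) ∧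
    ∃ n, 2 ≤ n ∧ (∏ k ∈ Finset.Ico 1 n, a k) / ∏ k ∈ Finset.Icc 1 n, c k < 2 := by
  refine ⟨fun n => 1 - Haar.c n, 0, Haar.c, Haar.P, fun n => ⟨(Haar.cb n).2.2, rfl, by simp⟩, rfl,
    fun n h => (Haar.cb n).2.1 (by omega), rfl, by simp [Haar.P, Haar.c0],
    fun n _ => by simpa [Haar.P] using Haar.rc n, Haar.lin, 2, le_rfl, ?_⟩
  rw [Finset.prod_Icc_succ_top (by omega)]
  norm_num [Haar.c1, Haar.c2]

end Pool.Agent.Results.MP_382e70_an.Small
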